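import Pool.Agent.Helper57.TX.Defs
import Pool.Agent.Helper93.UX.Defs

/-!
# TX, block A13: the sharp upper bound from the master estimate
-/

set_option autoImplicit false
open MeasureTheory Set Filter Topology
open Pool.Agent.Helper93.UG (zc sp)

namespace Pool.Agent.Helper3.TX

/-- `k! e ^ k ≤ e k ^ (k + 1)` -/
theorem fact_le (k : ℕ) (hk : 1 ≤ k) : (k.factorial : ℝ) * Real.exp k ≤ Real.exp 1 * (k : ℝ) ^ (k + 1) := by
  induction k, hk using Nat.le_induction with
  | base => simp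
  | succ k hk ih =>
    have hk0 : (0 : ℝ) < k := by exact_mod_cast hk
    -- `e k ^ (k+1) ≤ (k+1) ^ (k+1)`
    have h1 : Real.exp 1 * (k : ℝ) ^ (k + 1) ≤ ((k : ℝ) + 1) ^ (k + 1) := by
      have h2 : 1 / ((k : ℝ) + 1) ≤ Real.log (((k : ℝ) + 1) / k) := by
        have := Real.one_sub_inv_le_log_of_pos (show 0 < ((k : ℝ) + 1) / k by positivity)
        have e : 1 - (((k : ℝ) + 1) / k)⁻¹ = 1 / ((k : ℝ) + 1) := by
          rw [inv_div]; field_simp; ring
        rwa [e] at this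
      have h3 : 1 ≤ ((k + 1 : ℕ) : ℝ) * Real.log (((k : ℝ) + 1) / k) := by
        have h4 : ((k + 1 : ℕ) : ℝ) * (1 / ((k : ℝ) + 1)) = 1 := by push_cast; field_simp
        have h6 := mul_le_mul_of_nonneg_left h2 (show (0 : ℝ) ≤ ((k + 1 : ℕ) : ℝ) by positivity)
        rw [h4] at h6
        exact h6
      have h5 : Real.exp 1 ≤ (((k : ℝ) + 1) / k) ^ (k + 1) := by
        calc Real.exp 1 ≤ Real.exp (((k + 1 : ℕ) : ℝ) * Real.log (((k : ℝ) + 1) / k)) := Real.exp_le_exp.2 h3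
          _ = (((k : ℝ) + 1) / k) ^ (k + 1) := by
            rw [mul_comm, Real.exp_mul, Real.exp_log (by positivity), Real.rpow_natCast]
      calc Real.exp 1 * (k : ℝ) ^ (k + 1) ≤ (((k : ℝ) + 1) / k) ^ (k + 1) * (k : ℝ) ^ (k + 1) :=
            mul_le_mul_of_nonneg_right h5 (by positivity)
        _ = ((k : ℝ) + 1) ^ (k + 1) := by
          rw [← mul_pow]; congr 1; field_simp
    calc ((k + 1).factorial : ℝ) * Real.exp ((k + 1 : ℕ) : ℝ) =
          ((k : ℝ) + 1) * Real.exp 1 * ((k.factorial : ℝ) * Real.exp k) := by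
            rw [Nat.factorial_succ]; push_cast; rw [Real.exp_add]; ring
      _ ≤ ((k : ℝ) + 1) * Real.exp 1 * (Real.exp 1 * (k : ℝ) ^ (k + 1)) :=
          mul_le_mul_of_nonneg_left ih (by positivity)
      _ ≤ ((k : ℝ) + 1) * Real.exp 1 * (((k : ℝ) + 1) ^ (k + 1)) :=
          mul_le_mul_of_nonneg_left h1 (by positivity)
      _ = Real.exp 1 * ((k + 1 : ℕ) : ℝ) ^ (k + 1 + 1) := by push_cast; ring

/-- the optimal moment -/
theorem opt {A θ : ℝ} (hA : 0 < A) (hθ : 0 < θ) (hθ1 : θ ≤ 1) :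
    ((⌊A⌋₊).factorial : ℝ) * (1 / A) ^ ⌊A⌋₊ ≤ Real.exp 2 / θ * Real.exp (-((1 - θ) * A)) := by
  set k := ⌊A⌋₊ with hk
  have hkA : (k : ℝ) ≤ A := Nat.floor_le hA.le
  have hAk : A < k + 1 := Nat.lt_floor_add_one A
  have h0 : A + 1 ≤ Real.exp (θ * A) / θ := by
    rw [le_div_iff₀ hθ]
    have := Real.add_one_le_exp (θ * A)
    nlinarith
  have hfin : Real.exp 2 * (A + 1) * Real.exp (-A) ≤ Real.exp 2 / θ * Real.exp (-((1 - θ) * A)) := by
    have e : Real.exp 2 / θ * Real.exp (-((1 - θ) * A)) = Real.exp 2 * (Real.exp (θ * A) / θ) * Real.exp (-A) := by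
      have : -((1 - θ) * A) = θ * A + -A := by ring
      rw [this, Real.exp_add]; ring
    rw [e]
    exact mul_le_mul_of_nonneg_right (mul_le_mul_of_nonneg_left h0 (Real.exp_pos _).le) (Real.exp_pos _).le
  refine le_trans ?_ hfin
  rcases Nat.eq_zero_or_pos k with h | h
  · rw [h]
    rw [h] at hAk
    have hA1 : A < 1 := by simpa using hAk
    simp only [Nat.factorial_zero, Nat.cast_one, pow_zero, mul_one]
    have h3 : Real.exp 1 ≤ Real.exp 2 * Real.exp (-A) := by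
      rw [← Real.exp_add]; exact Real.exp_le_exp.2 (by linarith)
    have h4 : 1 ≤ Real.exp 1 := Real.one_le_exp (by norm_num)
    have h5 : Real.exp 2 * (A + 1) * Real.exp (-A) = (A + 1) * (Real.exp 2 * Real.exp (-A)) := by ring
    rw [h5]
    nlinarith [Real.exp_pos 1]
  · have hk0 : (0 : ℝ) < k := by exact_mod_cast h
    have h1 := fact_le k h
    have h2 : ((k.factorial : ℝ)) ≤ Real.exp 1 * (k : ℝ) ^ (k + 1) * Real.exp (-(k : ℝ)) := by
      have := mul_le_mul_of_nonneg_right h1 (Real.exp_pos (-(k : ℝ))).le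
      rwa [mul_assoc, ← Real.exp_add, add_neg_cancel, Real.exp_zero, mul_one] at this
    have h3 : (k : ℝ) ^ k * (1 / A) ^ k ≤ 1 := by
      rw [← mul_pow]
      refine pow_le_one₀ (by positivity) ?_
      rw [mul_one_div, div_le_one hA]; exact hkA
    calc (k.factorial : ℝ) * (1 / A) ^ k ≤ Real.exp 1 * (k : ℝ) ^ (k + 1) * Real.exp (-(k : ℝ)) * (1 / A) ^ k :=
          mul_le_mul_of_nonneg_right h2 (by positivity)
      _ = Real.exp 1 * (k : ℝ) * Real.exp (-(k : ℝ)) * ((k : ℝ) ^ k * (1 / A) ^ k) := by ring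
      _ ≤ Real.exp 1 * (k : ℝ) * Real.exp (-(k : ℝ)) * 1 := mul_le_mul_of_nonneg_left h3 (by positivity)
      _ ≤ Real.exp 1 * (A + 1) * Real.exp (1 - A) := by
          rw [mul_one]
          apply mul_le_mul (mul_le_mul_of_nonneg_left (by linarith) (Real.exp_pos _).le)
            (Real.exp_le_exp.2 (by linarith)) (Real.exp_pos _).le (by positivity)
      _ = Real.exp 2 * (A + 1) * Real.exp (-A) := by
          have : Real.exp 1 * Real.exp (1 - A) = Real.exp 2 * Real.exp (-A) := by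
            rw [← Real.exp_add, ← Real.exp_add]; congr 1; ring
          linear_combination (A + 1) * this

theorem tx2_of (master : ∃ C κ M₀ T₀ : ℝ, 0 < C ∧ 0 < κ ∧ 1 ≤ M₀ ∧ ∀ T c M : ℝ, T₀ ≤ T → 1 ≤ c →
    c * Real.log (Real.log T) ≤ Real.log T → M₀ ≤ M → M ≤ Real.log T →
    ∀ (V : ℝ) (k : ℕ), 0 < V → (k : ℝ) ≤ M / 8 →
    volume {t : ℝ | T / 2 ≤ t ∧ t ≤ 3 * T ∧ V + C * M ≤ |(zc (Ico t (t + c * sp T)) : ℝ) - c|} ≤
      ENNReal.ofReal ((C * Real.exp (-(κ * M)) +
        C * (k.factorial * (2 / Real.pi ^ 2 * (Real.log c + C) / V ^ 2) ^ k)) * T)) :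
    Pool.Agent.Helper93.UX.TX2 := by
  obtain ⟨C, κ, M₀, T₀, hC, hκ, hM₀, hm⟩ := master
  -- reduction to `ε ≤ 1`
  suffices H : ∀ ε : ℝ, 0 < ε → ε ≤ 1 → ∃ C η d c₀ T₀ : ℝ, 0 < C ∧ 0 < η ∧ 0 < d ∧ ∀ T : ℝ, T₀ ≤ T → ∀ c V : ℝ, c₀ ≤ c →
      c ≤ d * (Real.log T / Real.log (Real.log T)) → 0 ≤ V → V ≤ η * Real.log c →
      volume {t : ℝ | T / 2 ≤ t ∧ t ≤ 3 * T ∧ V ≤ |(zc (Ico t (t + c * sp T)) : ℝ) - c|} ≤
        ENNReal.ofReal (Real.exp (C - (Real.pi ^ 2 / 2 - ε) * V ^ 2 / Real.log c) * T) by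
    intro ε hε
    obtain ⟨C', η, d, c₀, T₁, hC', hη, hd, h⟩ := H (min ε 1) (lt_min hε one_pos) (min_le_right _ _)
    refine ⟨C', η, d, max c₀ 1, max T₁ 0, hC', hη, hd, fun T hT c V hc hcd hV hVc => ?_⟩
    refine (h T ((le_max_left _ _).trans hT) c V ((le_max_left _ _).trans hc) hcd hV hVc).trans ?_
    have hT0 : 0 ≤ T := (le_max_right _ _).trans hT
    have hlc : 0 ≤ Real.log c := Real.log_nonneg ((le_max_right _ _).trans hc)
    refine ENNReal.ofReal_le_ofReal (mul_le_mul_of_nonneg_right (Real.exp_le_exp.2 ?_) hT0)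
    have : (Real.pi ^ 2 / 2 - ε) * V ^ 2 / Real.log c ≤ (Real.pi ^ 2 / 2 - min ε 1) * V ^ 2 / Real.log c := by
      apply div_le_div_of_nonneg_right _ hlc
      exact mul_le_mul_of_nonneg_right (by linarith [min_le_left ε 1]) (sq_nonneg _)
    linarith
  intro ε hε hε1
  have hpi : 3 < Real.pi := Real.pi_gt_three
  set a : ℝ := Real.pi ^ 2 / 2 with ha
  have ha4 : 4 < a := by rw [ha]; nlinarith
  have ha0 : 0 < a := by linarith
  set θ : ℝ := ε / (4 * a) with hθ
  have hθ0 : 0 < θ := by positivity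
  have hθ1 : θ ≤ 1 / 16 := by
    rw [hθ, div_le_div_iff₀ (by positivity) (by norm_num)]; nlinarith
  have hθa : θ * a = ε / 4 := by rw [hθ]; field_simp
  set ε₁ : ℝ := min (θ / (2 * C)) 1 with hε₁
  have hε₁0 : 0 < ε₁ := lt_min (by positivity) one_pos
  have hε₁1 : ε₁ ≤ 1 := min_le_right _ _
  have hCε : C * ε₁ ≤ θ / 2 := by
    calc C * ε₁ ≤ C * (θ / (2 * C)) := mul_le_mul_of_nonneg_left (min_le_left _ _) hC.le
      _ = θ / 2 := by field_simp
  set η : ℝ := min (min (ε₁ / (8 * a)) (κ * ε₁ / a)) 1 with hη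
  have hη0 : 0 < η := lt_min (lt_min (by positivity) (by positivity)) one_pos
  have hη1 : η ≤ 1 := min_le_right _ _
  have hηa : η ≤ ε₁ / (8 * a) := (min_le_left _ _).trans (min_le_left _ _)
  have hηb : η ≤ κ * ε₁ / a := (min_le_left _ _).trans (min_le_right _ _)
  set L₀ : ℝ := max 1 (C / θ) with hL₀
  set D : ℝ := C + C * (Real.exp 2 / θ) + 1 with hD
  have hD1 : 1 ≤ D := by
    have : 0 ≤ C + C * (Real.exp 2 / θ) := by positivity
    linarith
  set C' : ℝ := Real.log D + 1 + a * (M₀ / ε₁) ^ 2 with hC'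
  have hlD : 0 ≤ Real.log D := Real.log_nonneg hD1
  have hC'0 : 0 < C' := by positivity
  refine ⟨C', η, 1, Real.exp L₀, max T₀ (Real.exp (Real.exp 1)), hC'0, hη0, one_pos, fun T hT c V hc hcd hV hVc => ?_⟩
  have hTT₀ : T₀ ≤ T := (le_max_left _ _).trans hT
  have hTe : Real.exp (Real.exp 1) ≤ T := (le_max_right _ _).trans hT
  have hT0 : 0 < T := (Real.exp_pos _).trans_le hTe
  have hlT : Real.exp 1 ≤ Real.log T := by
    rw [Real.le_log_iff_exp_le hT0]; exact hTe
  have hlT0 : 0 < Real.log T := (Real.exp_pos _).trans_le hlT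
  have hllT : 1 ≤ Real.log (Real.log T) := by
    rw [Real.le_log_iff_exp_le hlT0]; exact hlT
  have hc0 : 0 < c := (Real.exp_pos _).trans_le hc
  have hlc : L₀ ≤ Real.log c := by rw [Real.le_log_iff_exp_le hc0]; exact hc
  have hlc1 : 1 ≤ Real.log c := (le_max_left _ _).trans hlc
  have hlcC : C / θ ≤ Real.log c := (le_max_right _ _).trans hlc
  have hlc0 : 0 < Real.log c := by linarith
  have hc1 : 1 ≤ c := by
    have : Real.exp 0 ≤ c := (Real.exp_le_exp.2 (by linarith [le_max_left 1 (C / θ)] : (0 : ℝ) ≤ L₀)).trans hc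
    simpa using this
  have hcll : c * Real.log (Real.log T) ≤ Real.log T := by
    rw [one_mul, le_div_iff₀ (by linarith)] at hcd; exact hcd
  have hcT : Real.log c ≤ Real.log T := by
    have h1 : c ≤ Real.log T := by nlinarith
    have h2 : Real.log T ≤ T := (Real.log_le_self hT0.le)
    exact Real.log_le_log hc0 (h1.trans h2)
  rcases lt_or_ge (ε₁ * V) M₀ with hsm | hlg
  · -- small `V`
    have hVs : V ≤ M₀ / ε₁ := by
      rw [le_div_iff₀ hε₁0]; linarith
    have h1 : volume {t : ℝ | T / 2 ≤ t ∧ t ≤ 3 * T ∧ V ≤ |(zc (Ico t (t + c * sp T)) : ℝ) - c|} ≤ volume (Icc (T / 2) (3 * T)) :=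
      measure_mono fun t ht => ⟨ht.1, ht.2.1⟩
    refine h1.trans ?_
    rw [Real.volume_Icc]
    refine ENNReal.ofReal_le_ofReal ?_
    have h2 : (a - ε) * V ^ 2 / Real.log c ≤ a * (M₀ / ε₁) ^ 2 := by
      calc (a - ε) * V ^ 2 / Real.log c ≤ a * V ^ 2 / 1 := by
            apply div_le_div₀ (by positivity) (mul_le_mul_of_nonneg_right (by linarith) (sq_nonneg _)) one_pos hlc1
        _ = a * V ^ 2 := by ring
        _ ≤ a * (M₀ / ε₁) ^ 2 := mul_le_mul_of_nonneg_left (pow_le_pow_left₀ hV hVs 2) ha0.le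
    have h3 : 1 ≤ C' - (a - ε) * V ^ 2 / Real.log c := by rw [hC']; linarith
    have h4 : (5 / 2 : ℝ) ≤ Real.exp (C' - (a - ε) * V ^ 2 / Real.log c) := by
      have := Real.exp_le_exp.2 h3
      have := Real.exp_one_gt_d9
      linarith
    nlinarith
  · -- large `V`
    have hV0 : 0 < V := by
      rcases hV.lt_or_eq with h | h
      · exact h
      · rw [← h] at hlg; linarith
    set V₁ : ℝ := V - C * (ε₁ * V) with hV₁
    have hV₁lo : (1 - θ / 2) * V ≤ V₁ := by
      rw [hV₁]; nlinarith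
    have hV₁0 : 0 < V₁ := lt_of_lt_of_le (by nlinarith) hV₁lo
    have hV₁V : V₁ ≤ V := by rw [hV₁]; nlinarith [mul_pos hC (mul_pos hε₁0 hV0)]
    have hlog : 0 < Real.log c + C := by linarith
    set A : ℝ := a * V₁ ^ 2 / (Real.log c + C) with hA
    have hA0 : 0 < A := by positivity
    have hAV : A ≤ a * V ^ 2 / Real.log c := by
      apply div_le_div₀ (by positivity) (mul_le_mul_of_nonneg_left (pow_le_pow_left₀ hV₁0.le hV₁V 2) ha0.le) hlc0 (by linarith)
    have hV2 : V ^ 2 ≤ η * Real.log c * V := by nlinarith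
    have hM : ((⌊A⌋₊ : ℕ) : ℝ) ≤ (ε₁ * V) / 8 := by
      refine (Nat.floor_le hA0.le).trans (hAV.trans ?_)
      rw [div_le_div_iff₀ hlc0 (by norm_num)]
      have h1 : η * (8 * a) ≤ ε₁ := by rw [le_div_iff₀ (by positivity)] at hηa; exact hηa
      have h2 : a * V ^ 2 * 8 ≤ a * (η * Real.log c * V) * 8 := by nlinarith
      have h3 : a * (η * Real.log c * V) * 8 = (η * (8 * a)) * (Real.log c * V) := by ring
      have h4 : (η * (8 * a)) * (Real.log c * V) ≤ ε₁ * (Real.log c * V) := mul_le_mul_of_nonneg_right h1 (by positivity)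
      nlinarith
    have hMT : ε₁ * V ≤ Real.log T := by
      calc ε₁ * V ≤ 1 * (η * Real.log c) := mul_le_mul hε₁1 hVc hV zero_le_one
        _ ≤ 1 * (1 * Real.log c) := by nlinarith
        _ = Real.log c := by ring
        _ ≤ Real.log T := hcT
    have hmain := hm T c (ε₁ * V) hTT₀ hc1 hcll hlg hMT V₁ ⌊A⌋₊ hV₁0 hM
    have hset : V₁ + C * (ε₁ * V) = V := by rw [hV₁]; ring
    rw [hset] at hmain
    refine hmain.trans (ENNReal.ofReal_le_ofReal (mul_le_mul_of_nonneg_right ?_ hT0.le))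
    have hinv : 2 / Real.pi ^ 2 * (Real.log c + C) / V₁ ^ 2 = 1 / A := by
      rw [hA, ha]; field_simp
    rw [hinv]
    have hopt := opt hA0 hθ0 (by linarith : θ ≤ 1)
    set E : ℝ := Real.exp (-((a - ε) * V ^ 2 / Real.log c)) with hE
    have hE0 : 0 < E := Real.exp_pos _
    -- first term
    have hfirst : Real.exp (-(κ * (ε₁ * V))) ≤ E := by
      rw [hE]
      refine Real.exp_le_exp.2 (neg_le_neg ?_)
      rw [div_le_iff₀ hlc0]
      have h1 : η * a ≤ κ * ε₁ := by rw [le_div_iff₀ ha0] at hηb; exact hηb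
      calc (a - ε) * V ^ 2 ≤ a * V ^ 2 := mul_le_mul_of_nonneg_right (by linarith) (sq_nonneg _)
        _ ≤ a * (η * Real.log c * V) := mul_le_mul_of_nonneg_left hV2 ha0.le
        _ = (η * a) * (Real.log c * V) := by ring
        _ ≤ (κ * ε₁) * (Real.log c * V) := mul_le_mul_of_nonneg_right h1 (by positivity)
        _ = κ * (ε₁ * V) * Real.log c := by ring
    -- second term
    have hsecond : Real.exp (-((1 - θ) * A)) ≤ E := by
      rw [hE]
      refine Real.exp_le_exp.2 (neg_le_neg ?_)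
      have h1 : (1 - θ) * (Real.log c + C) ≤ Real.log c := by
        have : C ≤ Real.log c * θ := by rw [div_le_iff₀ hθ0] at hlcC; exact hlcC
        nlinarith
      have h2 : (1 - θ) * V ^ 2 ≤ V₁ ^ 2 := by
        calc (1 - θ) * V ^ 2 ≤ ((1 - θ / 2) * V) ^ 2 := by nlinarith [sq_nonneg (θ / 2 * V)]
          _ ≤ V₁ ^ 2 := pow_le_pow_left₀ (by nlinarith) hV₁lo 2
      rw [hA, ← mul_div_assoc, div_le_div_iff₀ hlc0 hlog]
      -- (a - ε) V² (log c + C) ≤ (1-θ) (a V₁²) log c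
      have h3 : (1 - θ) * (a * ((1 - θ) * V ^ 2)) * Real.log c ≤ (1 - θ) * (a * V₁ ^ 2) * Real.log c := by
        apply mul_le_mul_of_nonneg_right _ hlc0.le
        apply mul_le_mul_of_nonneg_left _ (by linarith)
        exact mul_le_mul_of_nonneg_left h2 ha0.le
      refine le_trans ?_ h3
      have h4 : (1 - θ) * (a * ((1 - θ) * V ^ 2)) * ((1 - θ) * (Real.log c + C)) ≤
          (1 - θ) * (a * ((1 - θ) * V ^ 2)) * Real.log c := by
        apply mul_le_mul_of_nonneg_left h1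
        have : 0 ≤ 1 - θ := by linarith
        positivity
      refine le_trans ?_ h4
      have h5 : a - ε ≤ (1 - θ) ^ 3 * a := by
        have : (1 - θ) ^ 3 ≥ 1 - 3 * θ := by nlinarith [sq_nonneg θ, pow_pos hθ0 3]
        nlinarith
      have h6 : (a - ε) * (V ^ 2 * (Real.log c + C)) ≤ (1 - θ) ^ 3 * a * (V ^ 2 * (Real.log c + C)) :=
        mul_le_mul_of_nonneg_right h5 (by positivity)
      nlinarith
    have hexp : Real.exp (C' - (a - ε) * V ^ 2 / Real.log c) = Real.exp C' * E := by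
      rw [hE, ← Real.exp_add]; congr 1
    rw [hexp]
    have hDC : D ≤ Real.exp C' := by
      rw [hC', ← Real.exp_log (by linarith : 0 < D)]
      refine Real.exp_le_exp.2 ?_
      rw [Real.exp_log (by linarith : 0 < D)]
      have : 0 ≤ a * (M₀ / ε₁) ^ 2 := by positivity
      linarith
    calc C * Real.exp (-(κ * (ε₁ * V))) + C * (((⌊A⌋₊).factorial : ℝ) * (1 / A) ^ ⌊A⌋₊) ≤
          C * E + C * (Real.exp 2 / θ * E) := by
            refine add_le_add (mul_le_mul_of_nonneg_left hfirst hC.le) (mul_le_mul_of_nonneg_left ?_ hC.le)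
            exact hopt.trans (mul_le_mul_of_nonneg_left hsecond (by positivity))
      _ = (C + C * (Real.exp 2 / θ)) * E := by ring
      _ ≤ D * E := mul_le_mul_of_nonneg_right (by rw [hD]; linarith) hE0.le
      _ ≤ Real.exp C' * E := mul_le_mul_of_nonneg_right hDC hE0.le

end Pool.Agent.Helper3.TX
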